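import Pool.Agent.Q231.LMD.Stubs

/-!
# Task D1 of project LMD: the finite check of the drawing
-/

set_option autoImplicit false

namespace Pool.Agent.Q142.LMD

open Pool.Agent.NPC Pool.Agent.NPC.Cnt Pool.Agent.H49R2.PC Pool.Agent.Q231.LMD

namespace D1aux

/-- A bounding box (moved by `(200, 200)`) and a segment. -/
abbrev BE : Type := (ℕ × ℕ × ℕ × ℕ) × (ℤ × ℤ) × (ℤ × ℤ)

/-- The relative edges with their bounding boxes (left, right, lower, upper side). -/
def relX : List BE :=
  [((222, 226, 207, 212), (26, 7), (22, 12)), ((226, 235, 200, 207), (26, 7), (35, 0)),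
    ((220, 222, 212, 220), (22, 12), (20, 20)), ((200, 226, 200, 207), (26, 7), (0, 0)),
    ((200, 222, 200, 212), (22, 12), (0, 0)), ((226, 242, 207, 217), (26, 7), (42, 17)),
    ((222, 242, 212, 217), (22, 12), (42, 17)), ((207, 212, 222, 226), (12, 22), (7, 26)),
    ((212, 220, 220, 222), (12, 22), (20, 20)), ((200, 207, 226, 235), (7, 26), (0, 35)),
    ((200, 212, 200, 222), (12, 22), (0, 0)), ((200, 207, 200, 226), (7, 26), (0, 0)),
    ((212, 217, 222, 242), (12, 22), (17, 42)), ((207, 217, 226, 242), (7, 26), (17, 42)),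
    ((188, 193, 233, 234), (-7, 33), (-12, 34)), ((193, 200, 233, 235), (-7, 33), (0, 35)),
    ((180, 188, 234, 240), (-12, 34), (-20, 40)), ((193, 200, 200, 233), (-7, 33), (0, 0)),
    ((188, 200, 200, 234), (-12, 34), (0, 0)), ((183, 193, 233, 258), (-7, 33), (-17, 58)),
    ((183, 188, 234, 258), (-12, 34), (-17, 58)), ((174, 178, 233, 234), (-22, 34), (-26, 33)),
    ((178, 180, 234, 240), (-22, 34), (-20, 40)), ((165, 174, 233, 235), (-26, 33), (-35, 35)),
    ((178, 200, 200, 234), (-22, 34), (0, 0)), ((174, 200, 200, 233), (-26, 33), (0, 0)),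
    ((158, 178, 234, 258), (-22, 34), (-42, 58)), ((158, 174, 233, 258), (-26, 33), (-42, 58)),
    ((166, 167, 222, 226), (-33, 26), (-34, 22)), ((165, 167, 226, 235), (-33, 26), (-35, 35)),
    ((160, 166, 220, 222), (-34, 22), (-40, 20)), ((167, 200, 200, 226), (-33, 26), (0, 0)),
    ((166, 200, 200, 222), (-34, 22), (0, 0)), ((142, 167, 226, 242), (-33, 26), (-58, 42)),
    ((142, 166, 222, 242), (-34, 22), (-58, 42)), ((166, 167, 207, 212), (-34, 12), (-33, 7)),
    ((160, 166, 212, 220), (-34, 12), (-40, 20)), ((165, 167, 200, 207), (-33, 7), (-35, 0)),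
    ((166, 200, 200, 212), (-34, 12), (0, 0)), ((167, 200, 200, 207), (-33, 7), (0, 0)),
    ((142, 166, 212, 217), (-34, 12), (-58, 17)), ((142, 167, 207, 217), (-33, 7), (-58, 17)),
    ((174, 178, 188, 193), (-26, -7), (-22, -12)), ((165, 174, 193, 200), (-26, -7), (-35, 0)),
    ((178, 180, 180, 188), (-22, -12), (-20, -20)), ((174, 200, 193, 200), (-26, -7), (0, 0)),
    ((178, 200, 188, 200), (-22, -12), (0, 0)), ((158, 174, 183, 193), (-26, -7), (-42, -17)),
    ((158, 178, 183, 188), (-22, -12), (-42, -17)), ((188, 193, 174, 178), (-12, -22), (-7, -26)),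
    ((180, 188, 178, 180), (-12, -22), (-20, -20)), ((193, 200, 165, 174), (-7, -26), (0, -35)),
    ((188, 200, 178, 200), (-12, -22), (0, 0)), ((193, 200, 174, 200), (-7, -26), (0, 0)),
    ((183, 188, 158, 178), (-12, -22), (-17, -42)), ((183, 193, 158, 174), (-7, -26), (-17, -42)),
    ((207, 212, 166, 167), (7, -33), (12, -34)), ((200, 207, 165, 167), (7, -33), (0, -35)),
    ((212, 220, 160, 166), (12, -34), (20, -40)), ((200, 207, 167, 200), (7, -33), (0, 0)),
    ((200, 212, 166, 200), (12, -34), (0, 0)), ((207, 217, 142, 167), (7, -33), (17, -58)),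
    ((212, 217, 142, 166), (12, -34), (17, -58)), ((222, 226, 166, 167), (22, -34), (26, -33)),
    ((220, 222, 160, 166), (22, -34), (20, -40)), ((226, 235, 165, 167), (26, -33), (35, -35)),
    ((200, 222, 166, 200), (22, -34), (0, 0)), ((200, 226, 167, 200), (26, -33), (0, 0)),
    ((222, 242, 142, 166), (22, -34), (42, -58)), ((226, 242, 142, 167), (26, -33), (42, -58)),
    ((233, 234, 174, 178), (33, -26), (34, -22)), ((233, 235, 165, 174), (33, -26), (35, -35)),
    ((234, 240, 178, 180), (34, -22), (40, -20)), ((200, 233, 174, 200), (33, -26), (0, 0)),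
    ((200, 234, 178, 200), (34, -22), (0, 0)), ((233, 258, 158, 174), (33, -26), (58, -42)),
    ((234, 258, 158, 178), (34, -22), (58, -42)), ((233, 234, 188, 193), (34, -12), (33, -7)),
    ((234, 240, 180, 188), (34, -12), (40, -20)), ((233, 235, 193, 200), (33, -7), (35, 0)),
    ((200, 234, 188, 200), (34, -12), (0, 0)), ((200, 233, 193, 200), (33, -7), (0, 0)),
    ((234, 258, 183, 188), (34, -12), (58, -17)), ((233, 258, 183, 193), (33, -7), (58, -17)),
    ((246, 254, 200, 200), (46, 0), (54, 0)), ((235, 246, 200, 200), (46, 0), (35, 0)),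
    ((254, 265, 200, 200), (54, 0), (65, 0)), ((242, 246, 200, 217), (46, 0), (42, 17)),
    ((242, 254, 200, 217), (54, 0), (42, 17)), ((246, 258, 183, 200), (46, 0), (58, -17)),
    ((254, 258, 183, 200), (54, 0), (58, -17)), ((200, 200, 246, 254), (0, 46), (0, 54)),
    ((200, 200, 235, 246), (0, 46), (0, 35)), ((200, 200, 254, 265), (0, 54), (0, 65)),
    ((200, 217, 242, 246), (0, 46), (17, 42)), ((200, 217, 242, 254), (0, 54), (17, 42)),
    ((183, 200, 246, 258), (0, 46), (-17, 58)), ((183, 200, 254, 258), (0, 54), (-17, 58)),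
    ((246, 254, 246, 254), (54, 46), (46, 54)), ((254, 265, 235, 246), (54, 46), (65, 35)),
    ((235, 246, 254, 265), (46, 54), (35, 65)), ((242, 254, 242, 246), (54, 46), (42, 42)),
    ((242, 246, 242, 254), (46, 54), (42, 42)), ((254, 258, 246, 258), (54, 46), (58, 58)),
    ((246, 258, 254, 258), (46, 54), (58, 58)), ((235, 237, 228, 228), (35, 28), (37, 28)),
    ((230, 235, 228, 230), (35, 28), (30, 30)), ((237, 239, 228, 230), (37, 28), (39, 30)),
    ((233, 235, 228, 233), (35, 28), (33, 33)), ((233, 237, 228, 233), (37, 28), (33, 33)),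
    ((235, 242, 217, 228), (35, 28), (42, 17)), ((237, 242, 217, 228), (37, 28), (42, 17)),
    ((235, 237, 235, 237), (37, 35), (35, 37)), ((237, 239, 230, 235), (37, 35), (39, 30)),
    ((230, 235, 237, 239), (35, 37), (30, 39)), ((233, 237, 233, 235), (37, 35), (33, 33)),
    ((233, 235, 233, 237), (35, 37), (33, 33)), ((237, 242, 235, 242), (37, 35), (42, 42)),
    ((235, 242, 237, 242), (35, 37), (42, 42)), ((228, 228, 235, 237), (28, 37), (28, 35)),
    ((228, 230, 237, 239), (28, 37), (30, 39)), ((228, 230, 230, 235), (28, 35), (30, 30)),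
    ((228, 233, 233, 237), (28, 37), (33, 33)), ((228, 233, 233, 235), (28, 35), (33, 33)),
    ((217, 228, 237, 242), (28, 37), (17, 42)), ((217, 228, 235, 242), (28, 35), (17, 42)),
    ((226, 228, 226, 228), (28, 28), (26, 26)), ((228, 230, 228, 230), (28, 28), (30, 30)),
    ((220, 226, 220, 226), (26, 26), (20, 20)), ((217, 228, 228, 242), (28, 28), (17, 42)),
    ((217, 226, 226, 242), (26, 26), (17, 42)), ((228, 242, 217, 228), (28, 28), (42, 17)),
    ((226, 242, 217, 226), (26, 26), (42, 17)), ((243, 248, 226, 228), (43, 28), (48, 26)),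
    ((239, 243, 228, 230), (43, 28), (39, 30)), ((248, 260, 220, 226), (48, 26), (60, 20)),
    ((242, 243, 217, 228), (43, 28), (42, 17)), ((242, 248, 217, 226), (48, 26), (42, 17)),
    ((242, 243, 228, 242), (43, 28), (42, 42)), ((242, 248, 226, 242), (48, 26), (42, 42)),
    ((226, 228, 243, 248), (28, 43), (26, 48)), ((228, 230, 239, 243), (28, 43), (30, 39)),
    ((220, 226, 248, 260), (26, 48), (20, 60)), ((228, 242, 242, 243), (28, 43), (42, 42)),
    ((226, 242, 242, 248), (26, 48), (42, 42)), ((217, 228, 242, 243), (28, 43), (17, 42)),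
    ((217, 226, 242, 248), (26, 48), (17, 42)), ((272, 272, 263, 265), (72, 63), (72, 65)),
    ((270, 272, 261, 263), (72, 63), (70, 61)), ((270, 272, 265, 270), (72, 65), (70, 70)),
    ((267, 272, 263, 267), (72, 63), (67, 67)), ((267, 272, 265, 267), (72, 65), (67, 67)),
    ((272, 283, 258, 263), (72, 63), (83, 58)), ((272, 283, 258, 265), (72, 65), (83, 58)),
    ((263, 265, 272, 272), (65, 72), (63, 72)), ((265, 270, 270, 272), (65, 72), (70, 70)),
    ((261, 263, 270, 272), (63, 72), (61, 70)), ((265, 267, 267, 272), (65, 72), (67, 67)),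
    ((263, 267, 267, 272), (63, 72), (67, 67)), ((258, 265, 272, 283), (65, 72), (58, 83)),
    ((258, 263, 272, 283), (63, 72), (58, 83)), ((263, 265, 263, 265), (63, 65), (65, 63)),
    ((261, 263, 265, 270), (63, 65), (61, 70)), ((265, 270, 261, 263), (65, 63), (70, 61)),
    ((263, 267, 265, 267), (63, 65), (67, 67)), ((265, 267, 263, 267), (65, 63), (67, 67)),
    ((258, 263, 258, 265), (63, 65), (58, 58)), ((258, 265, 258, 263), (65, 63), (58, 58)),
    ((272, 274, 252, 257), (72, 57), (74, 52)), ((270, 272, 257, 261), (72, 57), (70, 61)),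
    ((274, 280, 240, 252), (74, 52), (80, 40)), ((258, 272, 257, 258), (72, 57), (58, 58)),
    ((258, 274, 252, 258), (74, 52), (58, 58)), ((272, 283, 257, 258), (72, 57), (83, 58)),
    ((274, 283, 252, 258), (74, 52), (83, 58)), ((272, 274, 272, 274), (72, 72), (74, 74)),
    ((270, 272, 270, 272), (72, 72), (70, 70)), ((274, 280, 274, 280), (74, 74), (80, 80)),
    ((272, 283, 258, 272), (72, 72), (83, 58)), ((274, 283, 258, 274), (74, 74), (83, 58)),
    ((258, 272, 272, 283), (72, 72), (58, 83)), ((258, 274, 274, 283), (74, 74), (58, 83)),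
    ((252, 257, 272, 274), (57, 72), (52, 74)), ((257, 261, 270, 272), (57, 72), (61, 70)),
    ((240, 252, 274, 280), (52, 74), (40, 80)), ((257, 258, 272, 283), (57, 72), (58, 83)),
    ((252, 258, 274, 283), (52, 74), (58, 83)), ((257, 258, 258, 272), (57, 72), (58, 58)),
    ((252, 258, 258, 274), (52, 74), (58, 58)), ((198, 200, 185, 200), (0, 0), (-2, -15)),
    ((200, 202, 183, 200), (0, 0), (2, -17)), ((198, 202, 183, 185), (-2, -15), (2, -17)),
    ((136, 142, 110, 117), (-58, -83), (-64, -90)),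
    ((141, 142, 109, 117), (-58, -83), (-59, -91)),
    ((136, 141, 109, 110), (-64, -90), (-59, -91)),
    ((142, 154, 136, 142), (-58, -58), (-46, -64)),
    ((142, 150, 141, 142), (-58, -58), (-50, -59)),
    ((150, 154, 136, 141), (-46, -64), (-50, -59)),
    ((110, 117, 142, 154), (-83, -58), (-90, -46)),
    ((109, 117, 142, 150), (-83, -58), (-91, -50)),
    ((109, 110, 150, 154), (-90, -46), (-91, -50)),
    ((133, 135, 131, 133), (-67, -67), (-65, -69)),
    ((133, 135, 133, 133), (-67, -67), (-65, -67)),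
    ((135, 135, 131, 133), (-65, -69), (-65, -67)),
    ((183, 190, 146, 158), (-17, -42), (-10, -54)), ((183, 191, 150, 158), (-17, -42), (-9, -50)),
    ((190, 191, 146, 150), (-10, -54), (-9, -50)), ((158, 164, 183, 190), (-42, -17), (-36, -10)),
    ((158, 159, 183, 191), (-42, -17), (-41, -9)), ((159, 164, 190, 191), (-36, -10), (-41, -9)),
    ((158, 159, 150, 158), (-42, -42), (-41, -50)),
    ((158, 164, 146, 158), (-42, -42), (-36, -54)),
    ((159, 164, 146, 150), (-41, -50), (-36, -54)),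
    ((167, 167, 165, 167), (-33, -33), (-33, -35)),
    ((167, 169, 165, 167), (-33, -33), (-31, -35)),
    ((167, 169, 165, 165), (-33, -35), (-31, -35))]

theorem relX_map : relX.map (fun x => x.2) = rel := by
  decide +kernel

/-- Correctness of the bounding box, and its bounds. -/
def boxOk (x : BE) : Bool :=
  decide ((x.1.1 : ℤ) = min x.2.1.1 x.2.2.1 + 200 ∧ (x.1.2.1 : ℤ) = max x.2.1.1 x.2.2.1 + 200 ∧
    (x.1.2.2.1 : ℤ) = min x.2.1.2 x.2.2.2 + 200 ∧ (x.1.2.2.2 : ℤ) = max x.2.1.2 x.2.2.2 + 200) &&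
  (Nat.ble 108 x.1.1 && Nat.ble x.1.2.1 290 && Nat.ble 108 x.1.2.2.1 && Nat.ble x.1.2.2.2 290)

theorem relX_box : relX.all boxOk = true := by
  decide +kernel

/-- The boxes are disjoint after moving the second one by `(D1 - 100, D2 - 100)`. -/
def bx (D1 D2 : ℕ) (e f : ℕ × ℕ × ℕ × ℕ) : Bool :=
  Nat.blt (e.2.1 + 100) (f.1 + D1) || (Nat.blt (f.2.1 + D1) (e.1 + 100) ||
    (Nat.blt (e.2.2.2 + 100) (f.2.2.1 + D2) || Nat.blt (f.2.2.2 + D2) (e.2.2.1 + 100)))

/-- The check for the move `(D1 - 100, D2 - 100)`. -/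
def chk (D1 D2 : ℕ) (d : ℤ × ℤ) : Bool :=
  relX.all (fun e => relX.all (fun f =>
    bx D1 D2 e.1 f.1 || okT e.2.1 e.2.2 (Q231.LMD.mv d f.2.1) (Q231.LMD.mv d f.2.2)))

theorem chk00 : chk 0 0 (-1, -1) = true := by
  decide +kernel

theorem chk01 : chk 0 100 (-1, 0) = true := by
  decide +kernel

theorem chk02 : chk 0 200 (-1, 1) = true := by
  decide +kernel

theorem chk10 : chk 100 0 (0, -1) = true := by
  decide +kernel

theorem chk11 : chk 100 100 (0, 0) = true := by
  decide +kernel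

theorem chk12 : chk 100 200 (0, 1) = true := by
  decide +kernel

theorem chk20 : chk 200 0 (1, -1) = true := by
  decide +kernel

theorem chk21 : chk 200 100 (1, 0) = true := by
  decide +kernel

theorem chk22 : chk 200 200 (1, 1) = true := by
  decide +kernel

theorem ok_of_box (A B C D : ℤ × ℤ)
    (h : max A.1 B.1 < min C.1 D.1 ∨ max C.1 D.1 < min A.1 B.1 ∨ max A.2 B.2 < min C.2 D.2 ∨
      max C.2 D.2 < min A.2 B.2) : okT A B C D = true := by
  have : sepT A B C D = true := by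
    unfold sepT
    rw [Bool.or_eq_true, Bool.or_eq_true, Bool.or_eq_true, decide_eq_true_eq, decide_eq_true_eq,
      decide_eq_true_eq, Bool.or_eq_true, decide_eq_true_eq]
    tauto
  unfold okT
  rw [this]
  simp

theorem box_of (x : BE) (hx : x ∈ relX) :
    ((x.1.1 : ℤ) = min x.2.1.1 x.2.2.1 + 200 ∧ (x.1.2.1 : ℤ) = max x.2.1.1 x.2.2.1 + 200 ∧
    (x.1.2.2.1 : ℤ) = min x.2.1.2 x.2.2.2 + 200 ∧ (x.1.2.2.2 : ℤ) = max x.2.1.2 x.2.2.2 + 200) ∧
    108 ≤ x.1.1 ∧ x.1.2.1 ≤ 290 ∧ 108 ≤ x.1.2.2.1 ∧ x.1.2.2.2 ≤ 290 := by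
  have h := List.all_eq_true.1 relX_box x hx
  unfold boxOk at h
  rw [Bool.and_eq_true, decide_eq_true_eq] at h
  refine ⟨h.1, ?_⟩
  have h2 := h.2
  rw [Bool.and_eq_true, Bool.and_eq_true, Bool.and_eq_true] at h2
  obtain ⟨⟨⟨a, b⟩, c⟩, d⟩ := h2
  exact ⟨Nat.le_of_ble_eq_true a, Nat.le_of_ble_eq_true b, Nat.le_of_ble_eq_true c,
    Nat.le_of_ble_eq_true d⟩

theorem blt_iff {a b : ℕ} : Nat.blt a b = true ↔ a < b := by
  unfold Nat.blt
  rw [Nat.ble_eq]
  rfl

theorem bx_ok (D1 D2 : ℕ) (d : ℤ × ℤ) (h1 : (D1 : ℤ) = 100 * d.1 + 100)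
    (h2 : (D2 : ℤ) = 100 * d.2 + 100) (e f : BE) (he : e ∈ relX) (hf : f ∈ relX)
    (h : bx D1 D2 e.1 f.1 = true) :
    okT e.2.1 e.2.2 (Q231.LMD.mv d f.2.1) (Q231.LMD.mv d f.2.2) = true := by
  obtain ⟨⟨a1, a2, a3, a4⟩, -⟩ := box_of e he
  obtain ⟨⟨b1, b2, b3, b4⟩, -⟩ := box_of f hf
  apply ok_of_box
  unfold bx at h
  rw [Bool.or_eq_true, Bool.or_eq_true, Bool.or_eq_true, blt_iff, blt_iff, blt_iff, blt_iff] at h
  unfold Q231.LMD.mv
  dsimp only
  omega

theorem far (d : ℤ × ℤ) (e f : BE) (he : e ∈ relX) (hf : f ∈ relX)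
    (h : d.1 < -1 ∨ 1 < d.1 ∨ d.2 < -1 ∨ 1 < d.2) :
    okT e.2.1 e.2.2 (Q231.LMD.mv d f.2.1) (Q231.LMD.mv d f.2.2) = true := by
  obtain ⟨⟨a1, a2, a3, a4⟩, a5, a6, a7, a8⟩ := box_of e he
  obtain ⟨⟨b1, b2, b3, b4⟩, b5, b6, b7, b8⟩ := box_of f hf
  apply ok_of_box
  unfold Q231.LMD.mv
  dsimp only
  omega

theorem near (D1 D2 : ℕ) (d : ℤ × ℤ) (h1 : (D1 : ℤ) = 100 * d.1 + 100)
    (h2 : (D2 : ℤ) = 100 * d.2 + 100) (hc : chk D1 D2 d = true) (e f : BE) (he : e ∈ relX)
    (hf : f ∈ relX) :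
    okT e.2.1 e.2.2 (Q231.LMD.mv d f.2.1) (Q231.LMD.mv d f.2.2) = true := by
  unfold chk at hc
  have h := List.all_eq_true.1 (List.all_eq_true.1 hc e he) f hf
  rw [Bool.or_eq_true] at h
  rcases h with h | h
  · exact bx_ok D1 D2 d h1 h2 e f he hf h
  · exact h

end D1aux

open D1aux in
theorem D1_ok : S_D1 := by
  intro d e he f hf
  rw [← relX_map, List.mem_map] at he hf
  obtain ⟨x, hx, rfl⟩ := he
  obtain ⟨y, hy, rfl⟩ := hf
  by_cases h : d.1 < -1 ∨ 1 < d.1 ∨ d.2 < -1 ∨ 1 < d.2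
  · exact far d x y hx hy h
  · obtain ⟨a, b⟩ := d
    dsimp only at h
    have ha : a = -1 ∨ a = 0 ∨ a = 1 := by omega
    have hb : b = -1 ∨ b = 0 ∨ b = 1 := by omega
    rcases ha with rfl | rfl | rfl <;> rcases hb with rfl | rfl | rfl
    · exact near 0 0 _ (by norm_num) (by norm_num) chk00 x y hx hy
    · exact near 0 100 _ (by norm_num) (by norm_num) chk01 x y hx hy
    · exact near 0 200 _ (by norm_num) (by norm_num) chk02 x y hx hy
    · exact near 100 0 _ (by norm_num) (by norm_num) chk10 x y hx hy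
    · exact near 100 100 _ (by norm_num) (by norm_num) chk11 x y hx hy
    · exact near 100 200 _ (by norm_num) (by norm_num) chk12 x y hx hy
    · exact near 200 0 _ (by norm_num) (by norm_num) chk20 x y hx hy
    · exact near 200 100 _ (by norm_num) (by norm_num) chk21 x y hx hy
    · exact near 200 200 _ (by norm_num) (by norm_num) chk22 x y hx hy

end Pool.Agent.Q142.LMD
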