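import Pool.Agent.Q231.LMD.Stubs

/-!
# Tasks D2, D4 of project LMD: the vertices and the edges of the graph
-/

set_option autoImplicit false

namespace Pool.Agent.Q142.LMD

open Pool.Agent.NPC Pool.Agent.NPC.Cnt Pool.Agent.H49R2.PC Pool.Agent.Q231.LMD

namespace D4aux

theorem idx_lt (L : List Pt) (K : List (Pt × ℕ)) (h : GoodLK L K) : ∀ i ∈ idx L K, i.2 < 27 := by
  intro i hi
  unfold idx at hi
  rw [List.mem_append, List.mem_append, List.mem_flatMap, List.mem_flatMap,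
    List.mem_flatMap] at hi
  rcases hi with ⟨s, -, hi⟩ | ⟨s, -, hi⟩ | ⟨t, ht, hi⟩
  · rw [List.mem_map] at hi
    obtain ⟨j, hj, rfl⟩ := hi
    have := List.mem_range.1 hj
    show j < 27
    omega
  · unfold pairIdx at hi
    rw [List.mem_append, List.mem_append] at hi
    rcases hi with hi | hi | hi
    · split_ifs at hi
      · rw [List.mem_singleton.1 hi]
        norm_num
      · simp at hi
    · split_ifs at hi
      · rw [List.mem_singleton.1 hi]
        norm_num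
      · simp at hi
    · split_ifs at hi
      · rw [List.mem_singleton.1 hi]
        norm_num
      · simp at hi
  · rw [List.mem_map] at hi
    obtain ⟨k, hk, rfl⟩ := hi
    have h1 := List.mem_range.1 hk
    have h2 := h.kind t ht
    show 15 + 6 * t.2 + k < 27
    omega

theorem tab_kinds : ∀ t < 27, (tabE t).1.2.2 < 18 ∧ (tabE t).2.1.2.2 < 18 ∧
    ∀ h ∈ (tabE t).2.2, h.2.2 < 9 := by
  decide

theorem vl_ty (x y τ : ℕ) : (vl x y τ).unpair.2 = τ := by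
  unfold vl
  rw [Nat.unpair_pair]

theorem sh_ty (p : Pt) (o : ℕ × ℕ × ℕ) : (sh p o).unpair.2 = o.2.2 := by
  unfold sh
  rw [vl_ty]

theorem vl_sh (p : Pt) (t : ℕ) : vl p.1 p.2 t = sh p (0, 0, t) := rfl

theorem div6 (m c : ℕ) (hc : c < 6) : (6 * m + c) / 6 = m := by omega

theorem mod6 (m c : ℕ) (hc : c < 6) : (6 * m + c) % 6 = c := by omega

theorem zp_sh (p : Pt) (o : ℕ × ℕ × ℕ) (c : ℕ) (hc : c < 6) :
    zp (6 * sh p o + c) = Q231.LMD.mv ((p.1 : ℤ), (p.2 : ℤ)) (rp c o) := by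
  unfold zp Q231.LMD.mv rp
  rw [div6 _ _ hc, mod6 _ _ hc]
  unfold sh vl
  simp only [Nat.unpair_pair, Prod.mk.injEq]
  push_cast
  constructor <;> ring

theorem zp_sh0 (p : Pt) (o : ℕ × ℕ × ℕ) :
    zp (6 * sh p o) = Q231.LMD.mv ((p.1 : ℤ), (p.2 : ℤ)) (rp 0 o) := zp_sh p o 0 (by norm_num)

/-- An attached selector of a special edge of the first end. -/
theorem mem_fst {L : List Pt} {p : Pt} {t u : ℕ} (h : u ∈ (spL L p t).2.1) :
    u = sh p (tabE t).1 := by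
  unfold spL at h
  simpa using h

theorem mem_snd {L : List Pt} {p : Pt} {t u : ℕ} (h : u ∈ (spL L p t).2.2.1) :
    u = sh p (tabE t).2.1 := by
  unfold spL at h
  dsimp only at h
  split_ifs at h
  · simp at h
  · simpa using h

theorem mem_hub {L : List Pt} {p : Pt} {t k : ℕ} (h : k ∈ (spL L p t).2.2.2) :
    ∃ o ∈ (tabE t).2.2, k = sh p o := by
  unfold spL at h
  dsimp only at h
  rw [List.mem_map] at h
  obtain ⟨o, ho, rfl⟩ := h
  exact ⟨o, ho, rfl⟩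

theorem mem_EL {L : List Pt} {K : List (Pt × ℕ)} (hLK : GoodLK L K) {e : Sp}
    (he : e ∈ EL L K) : ∃ (p : Pt) (t : ℕ), t < 27 ∧ e = spL L p t := by
  unfold EL at he
  rw [List.mem_map] at he
  obtain ⟨i, hi, rfl⟩ := he
  exact ⟨i.1, i.2, idx_lt L K hLK i hi, rfl⟩

/-- The edges of the graph. -/
theorem mem_gE {E : List Sp} {x : ℕ × ℕ} : x ∈ (gE E).2 ↔
    (∃ e ∈ E, x = (6 * e.1 + 1, 6 * e.1 + 2) ∨ (∃ u ∈ e.2.1, x = (6 * e.1 + 1, 6 * u)) ∨
      (∃ u ∈ e.2.2.1, x = (6 * e.1 + 2, 6 * u)) ∨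
      (∃ k ∈ e.2.2.2, x = (6 * e.1 + 1, 6 * k + 3) ∨ x = (6 * e.1 + 2, 6 * k + 3))) ∨
    ∃ k ∈ hubV E, x = (6 * k + 3, 6 * k + 4) ∨ x = (6 * k + 3, 6 * k + 5) ∨
      x = (6 * k + 4, 6 * k + 5) := by
  unfold gE
  dsimp only
  rw [List.mem_append, List.mem_flatMap, List.mem_flatMap]
  constructor
  · rintro (⟨e, he, h⟩ | ⟨k, hk, h⟩)
    · refine Or.inl ⟨e, he, ?_⟩
      rw [List.mem_cons, List.mem_append, List.mem_append, List.mem_map, List.mem_map,
        List.mem_flatMap] at h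
      rcases h with h | ⟨u, hu, h⟩ | ⟨u, hu, h⟩ | ⟨k, hk, h⟩
      · exact Or.inl h
      · exact Or.inr (Or.inl ⟨u, hu, h.symm⟩)
      · exact Or.inr (Or.inr (Or.inl ⟨u, hu, h.symm⟩))
      · simp only [List.mem_cons, List.not_mem_nil, or_false] at h
        exact Or.inr (Or.inr (Or.inr ⟨k, hk, h⟩))
    · refine Or.inr ⟨k, hk, ?_⟩
      simpa only [List.mem_cons, List.not_mem_nil, or_false] using h
  · rintro (⟨e, he, h⟩ | ⟨k, hk, h⟩)
    · refine Or.inl ⟨e, he, ?_⟩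
      rw [List.mem_cons, List.mem_append, List.mem_append, List.mem_map, List.mem_map,
        List.mem_flatMap]
      rcases h with h | ⟨u, hu, h⟩ | ⟨u, hu, h⟩ | ⟨k, hk, h⟩
      · exact Or.inl h
      · exact Or.inr (Or.inl ⟨u, hu, h.symm⟩)
      · exact Or.inr (Or.inr (Or.inl ⟨u, hu, h.symm⟩))
      · refine Or.inr (Or.inr (Or.inr ⟨k, hk, ?_⟩))
        simpa only [List.mem_cons, List.not_mem_nil, or_false] using h
    · refine Or.inr ⟨k, hk, ?_⟩
      simpa only [List.mem_cons, List.not_mem_nil, or_false] using h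

/-- The hubs. -/
theorem mem_hubV {L : List Pt} {K : List (Pt × ℕ)} (hLK : GoodLK L K) {k : ℕ}
    (hk : k ∈ hubV (EL L K)) : ∃ (p : Pt) (t : ℕ), t < 27 ∧ ∃ o ∈ (tabE t).2.2, k = sh p o := by
  unfold hubV at hk
  rw [List.mem_dedup, List.mem_flatMap] at hk
  obtain ⟨e, he, hk⟩ := hk
  obtain ⟨p, t, ht, rfl⟩ := mem_EL hLK he
  obtain ⟨o, ho, rfl⟩ := mem_hub hk
  exact ⟨p, t, ht, o, ho, rfl⟩

theorem len : (offT.getD 0 []).length = 18 ∧ (offT.getD 1 []).length = 27 ∧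
    (offT.getD 2 []).length = 27 ∧ (offT.getD 3 []).length = 9 ∧ (offT.getD 4 []).length = 9 ∧
    (offT.getD 5 []).length = 9 := by
  decide

theorem okV_of (m c n : ℕ) (hc : c < 6) (h : m.unpair.2 < n)
    (hn : (offT.getD c []).length = n) : okV (6 * m + c) := by
  unfold okV
  rw [div6 _ _ hc, mod6 _ _ hc, hn]
  exact h

/-- Membership of relative edges. -/
theorem rel_E {t : ℕ} (ht : t < 27) {r : (ℤ × ℤ) × (ℤ × ℤ)} (hr : r ∈ relE t) : r ∈ rel := by
  unfold rel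
  rw [List.mem_append, List.mem_flatMap]
  exact Or.inl ⟨t, List.mem_range.2 ht, hr⟩

theorem rel_H {k : ℕ} (hk : k < 9) {r : (ℤ × ℤ) × (ℤ × ℤ)} (hr : r ∈ relH k) : r ∈ rel := by
  unfold rel
  rw [List.mem_append, List.mem_flatMap, List.mem_flatMap]
  exact Or.inr ⟨k, List.mem_range.2 hk, hr⟩

end D4aux

open D4aux in
theorem D4_ok : S_D4 := by
  intro L K hLK v hv
  obtain ⟨l0, l1, l2, l3, l4, l5⟩ := len
  unfold gE at hv
  dsimp only at hv
  rw [List.mem_append, List.mem_append, List.mem_map, List.mem_flatMap, List.mem_flatMap] at hv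
  rcases hv with (⟨u, hu, rfl⟩ | ⟨e, he, hv⟩) | ⟨k, hk, hv⟩
  · unfold selV at hu
    rw [List.mem_dedup, List.mem_flatMap] at hu
    obtain ⟨e, he, hu⟩ := hu
    unfold att at hu
    rw [List.mem_append] at hu
    obtain ⟨p, t, ht, rfl⟩ := mem_EL hLK he
    obtain ⟨k1, k2, -⟩ := tab_kinds t ht
    constructor
    · refine okV_of u 0 18 (by norm_num) ?_ l0
      rcases hu with hu | hu
      · rw [mem_fst hu, sh_ty]
        exact k1
      · rw [mem_snd hu, sh_ty]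
        exact k2
    · rcases hu with hu | hu
      · exact ⟨_, mem_gE.2 (Or.inl ⟨_, he, Or.inr (Or.inl ⟨u, hu, rfl⟩)⟩), Or.inr rfl⟩
      · exact ⟨_, mem_gE.2 (Or.inl ⟨_, he, Or.inr (Or.inr (Or.inl ⟨u, hu, rfl⟩))⟩), Or.inr rfl⟩
  · obtain ⟨p, t, ht, rfl⟩ := mem_EL hLK he
    have hty : ((spL L p t).1).unpair.2 < 27 := by
      show (vl p.1 p.2 t).unpair.2 < 27
      rw [vl_ty]
      exact ht
    have hed := mem_gE.2 (Or.inl ⟨_, he, Or.inl rfl⟩)
    simp only [List.mem_cons, List.not_mem_nil, or_false] at hv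
    rcases hv with rfl | rfl
    · exact ⟨okV_of _ 1 27 (by norm_num) hty l1, _, hed, Or.inl rfl⟩
    · exact ⟨okV_of _ 2 27 (by norm_num) hty l2, _, hed, Or.inr rfl⟩
  · obtain ⟨p, t, ht, o, ho, rfl⟩ := mem_hubV hLK hk
    have hty : (sh p o).unpair.2 < 9 := by
      rw [sh_ty]
      exact (tab_kinds t ht).2.2 o ho
    simp only [List.mem_cons, List.not_mem_nil, or_false] at hv
    rcases hv with rfl | rfl | rfl
    · exact ⟨okV_of _ 3 9 (by norm_num) hty l3, _,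
        mem_gE.2 (Or.inr ⟨_, hk, Or.inl rfl⟩), Or.inl rfl⟩
    · exact ⟨okV_of _ 4 9 (by norm_num) hty l4, _,
        mem_gE.2 (Or.inr ⟨_, hk, Or.inl rfl⟩), Or.inr rfl⟩
    · exact ⟨okV_of _ 5 9 (by norm_num) hty l5, _,
        mem_gE.2 (Or.inr ⟨_, hk, Or.inr (Or.inl rfl)⟩), Or.inr rfl⟩

open D4aux in
theorem D2_ok : S_D2 := by
  intro L K hLK e he
  rw [mem_gE] at he
  rcases he with ⟨s, hs, h⟩ | ⟨k, hk, h⟩
  · obtain ⟨p, t, ht, rfl⟩ := mem_EL hLK hs
    refine ⟨p, ?_⟩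
    have h0 : (spL L p t).1 = sh p (0, 0, t) := vl_sh p t
    rw [h0] at h
    rcases h with rfl | ⟨u, hu, rfl⟩ | ⟨u, hu, rfl⟩ | ⟨k, hk, h⟩
    · exact ⟨(rp 1 (0, 0, t), rp 2 (0, 0, t)), rel_E ht (by unfold relE; simp),
        zp_sh p _ 1 (by norm_num), zp_sh p _ 2 (by norm_num)⟩
    · rw [mem_fst hu]
      exact ⟨(rp 1 (0, 0, t), rp 0 (tabE t).1), rel_E ht (by unfold relE; simp),
        zp_sh p _ 1 (by norm_num), zp_sh0 p _⟩
    · rw [mem_snd hu]
      exact ⟨(rp 2 (0, 0, t), rp 0 (tabE t).2.1), rel_E ht (by unfold relE; simp),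
        zp_sh p _ 2 (by norm_num), zp_sh0 p _⟩
    · obtain ⟨o, ho, rfl⟩ := mem_hub hk
      rcases h with rfl | rfl
      · refine ⟨(rp 1 (0, 0, t), rp 3 o), rel_E ht ?_, zp_sh p _ 1 (by norm_num),
          zp_sh p _ 3 (by norm_num)⟩
        unfold relE
        rw [List.mem_append, List.mem_flatMap]
        exact Or.inr ⟨o, ho, by simp⟩
      · refine ⟨(rp 2 (0, 0, t), rp 3 o), rel_E ht ?_, zp_sh p _ 2 (by norm_num),
          zp_sh p _ 3 (by norm_num)⟩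
        unfold relE
        rw [List.mem_append, List.mem_flatMap]
        exact Or.inr ⟨o, ho, by simp⟩
  · obtain ⟨p, t, ht, o, ho, rfl⟩ := mem_hubV hLK hk
    have hty : o.2.2 < 9 := (tab_kinds t ht).2.2 o ho
    have h0 : sh p o = sh (p.1 + o.1, p.2 + o.2.1) (0, 0, o.2.2) := rfl
    rw [h0] at h
    refine ⟨(p.1 + o.1, p.2 + o.2.1), ?_⟩
    rcases h with rfl | rfl | rfl
    · exact ⟨(rp 3 (0, 0, o.2.2), rp 4 (0, 0, o.2.2)), rel_H hty (by unfold relH; simp),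
        zp_sh _ _ 3 (by norm_num), zp_sh _ _ 4 (by norm_num)⟩
    · exact ⟨(rp 3 (0, 0, o.2.2), rp 5 (0, 0, o.2.2)), rel_H hty (by unfold relH; simp),
        zp_sh _ _ 3 (by norm_num), zp_sh _ _ 5 (by norm_num)⟩
    · exact ⟨(rp 4 (0, 0, o.2.2), rp 5 (0, 0, o.2.2)), rel_H hty (by unfold relH; simp),
        zp_sh _ _ 4 (by norm_num), zp_sh _ _ 5 (by norm_num)⟩

end Pool.Agent.Q142.LMD
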