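import Pool.Agent.Q231.LMD.Stubs
import Pool.Agent.H49R2.PC.U5a

/-!
# Task D5i of project LMD: the plane drawing
-/

set_option autoImplicit false

namespace Pool.Agent.Q142.LMD

open Pool.Agent.NPC Pool.Agent.NPC.Cnt Pool.Agent.H49R2.PC Pool.Agent.Q231.LMD

namespace D5aux

/-- Translation. -/
def tr (t A : ℤ × ℤ) : ℤ × ℤ := (A.1 + t.1, A.2 + t.2)

theorem tr_inj (t A B : ℤ × ℤ) : tr t A = tr t B ↔ A = B := by
  unfold tr
  rw [Prod.ext_iff, Prod.ext_iff]
  simp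

theorem cross_tr (t A B C : ℤ × ℤ) : crossZ (tr t A) (tr t B) (tr t C) = crossZ A B C := by
  unfold crossZ tr
  simp only
  ring

theorem sep1_tr (t A B C D : ℤ × ℤ) :
    sep1 (tr t A) (tr t B) (tr t C) (tr t D) = sep1 A B C D := by
  unfold sep1
  rw [cross_tr, cross_tr]

theorem sepT_tr (t A B C D : ℤ × ℤ) :
    sepT (tr t A) (tr t B) (tr t C) (tr t D) = sepT A B C D := by
  have h : ∀ a b c d u : ℤ, (max (a + u) (b + u) < min (c + u) (d + u)) ↔
      (max a b < min c d) := by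
    intro a b c d u
    omega
  unfold sepT
  rw [sep1_tr, sep1_tr, Bool.eq_iff_iff]
  simp only [Bool.or_eq_true, decide_eq_true_eq]
  simp only [tr, h]

theorem shareT_tr (t A B D : ℤ × ℤ) : shareT (tr t A) (tr t B) (tr t D) = shareT A B D := by
  unfold shareT
  rw [cross_tr]
  simp only [tr, add_sub_add_right_eq_sub]

theorem okT_tr (t A B C D : ℤ × ℤ) :
    okT (tr t A) (tr t B) (tr t C) (tr t D) = okT A B C D := by
  unfold okT
  rw [sepT_tr]
  simp only [shareT_tr, tr_inj]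

theorem toR_inj (A B : ℤ × ℤ) (h : toR A = toR B) : A = B := by
  unfold toR at h
  rw [Prod.mk.injEq] at h
  obtain ⟨h1, h2⟩ := h
  exact Prod.ext (by exact_mod_cast h1) (by exact_mod_cast h2)

theorem mv_tr (p A : ℤ × ℤ) : Q231.LMD.mv p A = tr (100 * p.1, 100 * p.2) A := by
  unfold Q231.LMD.mv tr
  rfl

theorem mv_tr' (p q A : ℤ × ℤ) :
    Q231.LMD.mv q A = tr (100 * p.1, 100 * p.2) (Q231.LMD.mv (q.1 - p.1, q.2 - p.2) A) := by
  unfold Q231.LMD.mv tr
  simp only [Prod.mk.injEq]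
  constructor <;> ring

end D5aux

open D5aux in
theorem D5i_ok : S_D5i := by
  intro h1 h2 h3 h4 L K hLK hG
  obtain ⟨hnd, hends⟩ := hG
  have hz : ∀ u ∈ (gE (EL L K)).1, ∀ v ∈ (gE (EL L K)).1, zp u = zp v → u = v := by
    intro u hu v hv h
    exact h3 u v (h4 L K hLK u hu).1 (h4 L K hLK v hv).1 h
  refine ⟨fun v => toR (zp v), ?_⟩
  have hthird : ∀ e ∈ (gE (EL L K)).2, ∀ f ∈ (gE (EL L K)).2, ∀ p : ℝ × ℝ,
      p ∈ segment ℝ (toR (zp e.1)) (toR (zp e.2)) →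
      p ∈ segment ℝ (toR (zp f.1)) (toR (zp f.2)) →
      (f = e ∨ f = (e.2, e.1)) ∨
        ∃ w, p = toR (zp w) ∧ (w = e.1 ∨ w = e.2) ∧ (w = f.1 ∨ w = f.2) := by
    intro e he f hf p hpe hpf
    obtain ⟨e1, e2, _⟩ := hends e he
    obtain ⟨f1, f2, _⟩ := hends f hf
    have hok : okT (zp e.1) (zp e.2) (zp f.1) (zp f.2) = true := by
      obtain ⟨P, r, hr, a1, a2⟩ := h2 L K hLK e he
      obtain ⟨P', r', hr', b1, b2⟩ := h2 L K hLK f hf
      rw [a1, a2, b1, b2, mv_tr (P.1, P.2) r.1, mv_tr (P.1, P.2) r.2,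
        mv_tr' ((P.1 : ℤ), (P.2 : ℤ)) ((P'.1 : ℤ), (P'.2 : ℤ)) r'.1,
        mv_tr' ((P.1 : ℤ), (P.2 : ℤ)) ((P'.1 : ℤ), (P'.2 : ℤ)) r'.2, okT_tr]
      exact h1 _ r hr r' hr'
    rcases U5a_ok _ _ _ _ hok p hpe hpf with (⟨h5, h6⟩ | ⟨h5, h6⟩) | ⟨w, hw, hw1, hw2⟩
    · left
      left
      exact Prod.ext (hz _ e1 _ f1 h5).symm (hz _ e2 _ f2 h6).symm
    · left
      right
      exact Prod.ext (hz _ e2 _ f1 h6).symm (hz _ e1 _ f2 h5).symm
    · right
      rcases hw1 with rfl | rfl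
      · refine ⟨e.1, hw, Or.inl rfl, ?_⟩
        rcases hw2 with h | h
        · exact Or.inl (hz _ e1 _ f1 h)
        · exact Or.inr (hz _ e1 _ f2 h)
      · refine ⟨e.2, hw, Or.inr rfl, ?_⟩
        rcases hw2 with h | h
        · exact Or.inl (hz _ e2 _ f1 h)
        · exact Or.inr (hz _ e2 _ f2 h)
  refine ⟨?_, ?_, hthird⟩
  · intro u hu v hv h
    exact hz u hu v hv (toR_inj _ _ h)
  · intro e he w hw hwe
    obtain ⟨e1, e2, _⟩ := hends e he
    obtain ⟨_, f, hf, hwf⟩ := h4 L K hLK w hw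
    have hwf' : toR (zp w) ∈ segment ℝ (toR (zp f.1)) (toR (zp f.2)) := by
      rcases hwf with h | h
      · rw [h]
        exact left_mem_segment _ _ _
      · rw [h]
        exact right_mem_segment _ _ _
    rcases hthird e he f hf _ hwe hwf' with (h | h) | ⟨w', h5, h6, _⟩
    · rw [h] at hwf
      exact hwf
    · rw [h] at hwf
      exact hwf.symm
    · have hw' : w' ∈ (gE (EL L K)).1 := by
        rcases h6 with rfl | rfl
        · exact e1
        · exact e2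
      have := hz _ hw _ hw' (toR_inj _ _ h5)
      rw [this]
      exact h6

end Pool.Agent.Q142.LMD
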